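import Pool.Agent.Helper72.TWR.Frame

/-!
Row FRP of the sheet TW: maximal orthonormal families are frames.
-/

open MeasureTheory Filter Topology Finset
open scoped ComplexConjugate

namespace Pool.Agent.Helper72.TWR

open Pool.Agent.Helper98.TW
open Pool.Agent.Helper73.TWR (pull cec ind ind_mul am_ind)

variable {Ω : Type} [m0 : MeasurableSpace Ω]
variable {V : Type} [NormedAddCommGroup V] [InnerProductSpace ℂ V]
variable {μ : Measure Ω} {E : Submodule ℂ (Lp V 2 μ)}

/-- a unitary matrix does not change the sum of the square norms -/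
theorem unit_norm {m : ℕ} {A : Matrix (Fin m) (Fin m) ℂ}
    (hA : A ∈ Matrix.unitaryGroup (Fin m) ℂ) (v : Fin m → V) :
    ∑ a, ‖∑ b, A a b • v b‖ ^ 2 = ∑ b, ‖v b‖ ^ 2 := by
  have hA' : star A * A = 1 := Matrix.mem_unitaryGroup_iff'.1 hA
  have hent : ∀ b c, ∑ a, conj (A a b) * A a c = if b = c then 1 else 0 := by
    intro b c
    have h := congrFun (congrFun hA' b) c
    rw [Matrix.mul_apply] at h
    rw [Matrix.one_apply] at h
    exact h
  have h1 : ((∑ a, ‖∑ b, A a b • v b‖ ^ 2 : ℝ) : ℂ) = ((∑ b, ‖v b‖ ^ 2 : ℝ) : ℂ) := by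
    have h2 : ∀ w : V, ((‖w‖ ^ 2 : ℝ) : ℂ) = inner ℂ w w := by
      intro w
      rw [inner_self_eq_norm_sq_to_K]
      norm_num
    rw [Complex.ofReal_sum, Complex.ofReal_sum]
    simp_rw [h2, sum_inner, inner_sum, inner_smul_left, inner_smul_right]
    calc ∑ a, ∑ b, ∑ c, conj (A a b) * (A a c * (inner ℂ (v b) (v c) : ℂ))
        = ∑ b, ∑ c, (∑ a, conj (A a b) * A a c) * (inner ℂ (v b) (v c) : ℂ) := by
          rw [Finset.sum_comm]
          refine Finset.sum_congr rfl fun b _ => ?_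
          rw [Finset.sum_comm]
          refine Finset.sum_congr rfl fun c _ => ?_
          rw [Finset.sum_mul]
          refine Finset.sum_congr rfl fun a _ => ?_
          ring
      _ = ∑ b, (inner ℂ (v b) (v b) : ℂ) := by
          refine Finset.sum_congr rfl fun b _ => ?_
          simp_rw [hent]
          rw [Finset.sum_eq_single b]
          · simp
          · intro c _ hc
            rw [if_neg (Ne.symm hc), zero_mul]
          · intro h
            exact absurd (Finset.mem_univ b) h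
  exact_mod_cast h1

theorem frp [IsProbabilityMeasure μ] {R R' : Ω → Ω} {C : SA Ω} {θ : Ω → V →L[ℂ] V}
    (hS : Sys μ R R') (hR : Ergodic R μ) (hI : IA μ C R R') (hθ : AEStronglyMeasurable θ μ)
    (hθ1 : ∀ x v, ‖θ x v‖ = ‖v‖) (hE : CM μ C R θ E) {m : ℕ} (e : Fin m → Lp V 2 μ)
    (he : ∀ a, e a ∈ E) (hon : ON μ C e) (hrk : Rk μ C E m) :
    ∃ ρ : Ω → Matrix (Fin m) (Fin m) ℂ, Fr μ C R θ E e ρ := by
  have hle : Lm C := hI.1
  have : IsFiniteMeasure (μ.trim hle) := isFiniteMeasure_trim hle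
  have : SigmaFinite (μ.trim hle) := IsFiniteMeasure.toSigmaFinite _
  have hel : ∀ a, MemLp (e a) 2 μ := fun a => Lp.memLp (e a)
  have hspan : ∀ G : Ω → V, IE μ E G →
      ∀ᵐ x ∂μ, G x = ∑ a, (μ[fun x => (inner ℂ (e a x) (G x) : ℂ)|C]) x • e a x := by
    intro G hG
    by_contra hne
    obtain ⟨e', he', hon'⟩ := ext_fam hS hR hI hθ hθ1 hE e he hon hG hne
    have := hrk (m + 1) e' he' hon'
    omega
  set W : Fin m → Ω → V := fun a x => θ x (e a (R x)) with hW
  have hWE : ∀ a, IE μ E (W a) := fun a => IE.comp hE hS.mp hθ hθ1 (ie_of_mem (he a))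
  have hWl : ∀ a, MemLp (W a) 2 μ := fun a => (hWE a).ml
  set ρ : Ω → Matrix (Fin m) (Fin m) ℂ := fun x => Matrix.of fun a b =>
    (μ[fun x => (inner ℂ (e b x) (W a x) : ℂ)|C]) x with hρ
  have hρs : ∀ a b, StronglyMeasurable[C] (fun x => ρ x a b) := fun a b =>
    stronglyMeasurable_condExp
  have hcomp : ∀ a, ∀ᵐ x ∂μ, W a x = ∑ b, ρ x a b • e b x := fun a => hspan _ (hWE a)
  -- unitarity
  set K : ℕ → Set Ω := fun k => {x | ∀ a b, ‖ρ x a b‖ ≤ k} with hK
  have hKC : ∀ k, MeasurableSet[C] (K k) := by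
    intro k
    have : K k = ⋂ a, ⋂ b, {x | ‖ρ x a b‖ ≤ k} := by
      ext x
      simp [hK]
    rw [this]
    refine @MeasurableSet.iInter _ _ C _ _ fun a => @MeasurableSet.iInter _ _ C _ _ fun b => ?_
    exact @mle Ω C _ _ (hρs a b).norm.measurable (@measurable_const _ _ _ C _)
  have hKA : ∀ k, AM μ C (ind (K k)) := fun k => am_ind μ (hKC k)
  have hKb : ∀ k, ∃ B : ℝ, ∀ᵐ x ∂μ, ‖ind (K k) x‖ ≤ B := fun k =>
    ⟨1, Eventually.of_forall fun x => ind_le _ x⟩
  have hKρ : ∀ k a b x, ‖ind (K k) x * ρ x a b‖ ≤ k := by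
    intro k a b x
    by_cases hx : x ∈ K k
    · rw [ind_of_mem hx, one_mul]
      exact hx a b
    · rw [ind_of_not hx, zero_mul, norm_zero]
      positivity
  have hKρA : ∀ k a b, AM μ C (fun x => ind (K k) x * ρ x a b) := fun k a b =>
    (hKA k).mul (hρs a b).aestronglyMeasurable
  have hKρb : ∀ k a b, ∃ B : ℝ, ∀ᵐ x ∂μ, ‖ind (K k) x * ρ x a b‖ ≤ B := fun k a b =>
    ⟨k, Eventually.of_forall fun x => hKρ k a b x⟩
  have hgram : ∀ a b, μ[fun x => (inner ℂ (W b x) (W a x) : ℂ)|C] =ᵐ[μ]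
      fun _ => if a = b then 1 else 0 := by
    intro a b
    have h1 : (fun x => (inner ℂ (W b x) (W a x) : ℂ)) =
        fun x => (fun y => (inner ℂ (e b y) (e a y) : ℂ)) (R x) := by
      funext x
      exact inner_iso (hθ1 x) _ _
    rw [h1]
    have h2 := cec hS hI (int_inner (hel b) (hel a))
    have h3 := hS.mp.quasiMeasurePreserving.ae_eq_comp (hon a b)
    filter_upwards [h2, h3] with x hx2 hx3
    rw [hx2]
    exact hx3
  have hunit : ∀ᵐ x ∂μ, ρ x ∈ Matrix.unitaryGroup (Fin m) ℂ := by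
    have hk : ∀ k : ℕ, ∀ a b, ∀ᵐ x ∂μ, x ∈ K k →
        ∑ c, ρ x a c * conj (ρ x b c) = if a = b then 1 else 0 := by
      intro k a b
      have h1 := ce_inner hle (hWl b) (hWl a) (hKA k) (hKA k) (hKb k) (hKb k)
      have h2 : μ[fun x => (inner ℂ (ind (K k) x • W b x) (ind (K k) x • W a x) : ℂ)|C] =ᵐ[μ]
          μ[∑ c, ∑ d, fun x => (inner ℂ ((ind (K k) x * ρ x b c) • e c x)
            ((ind (K k) x * ρ x a d) • e d x) : ℂ)|C] := by
        refine condExp_congr_ae ?_
        filter_upwards [hcomp a, hcomp b] with x hxa hxb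
        rw [hxa, hxb]
        simp only [Finset.sum_apply, Finset.smul_sum, smul_smul, sum_inner, inner_sum]
        exact Finset.sum_comm
      have hi : ∀ c d, Integrable (fun x => (inner ℂ ((ind (K k) x * ρ x b c) • e c x)
            ((ind (K k) x * ρ x a d) • e d x) : ℂ)) μ := fun c d =>
        int_inner (ml_smul hle (hel c) (hKρA k b c) (hKρb k b c))
          (ml_smul hle (hel d) (hKρA k a d) (hKρb k a d))
      have h3 : μ[∑ c, ∑ d, fun x => (inner ℂ ((ind (K k) x * ρ x b c) • e c x)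
            ((ind (K k) x * ρ x a d) • e d x) : ℂ)|C] =ᵐ[μ]
          ∑ c, ∑ d, μ[fun x => (inner ℂ ((ind (K k) x * ρ x b c) • e c x)
            ((ind (K k) x * ρ x a d) • e d x) : ℂ)|C] := by
        refine (condExp_finsetSum (s := univ)
          (fun c _ => integrable_finsetSum' univ fun d _ => hi c d) C).trans ?_
        have h4 : ∀ᵐ x ∂μ, ∀ c, (μ[∑ d, fun x =>
            (inner ℂ ((ind (K k) x * ρ x b c) • e c x)
            ((ind (K k) x * ρ x a d) • e d x) : ℂ)|C]) x =
            (∑ d, μ[fun x => (inner ℂ ((ind (K k) x * ρ x b c) • e c x)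
            ((ind (K k) x * ρ x a d) • e d x) : ℂ)|C]) x :=
          ae_all_iff.2 fun c => condExp_finsetSum (s := univ) (fun d _ => hi c d) C
        filter_upwards [h4] with x hx
        rw [Finset.sum_apply, Finset.sum_apply]
        exact Finset.sum_congr rfl fun c _ => hx c
      have h5 : ∀ᵐ x ∂μ, ∀ c d, (μ[fun x => (inner ℂ ((ind (K k) x * ρ x b c) • e c x)
            ((ind (K k) x * ρ x a d) • e d x) : ℂ)|C]) x =
          conj (ind (K k) x * ρ x b c) * (ind (K k) x * ρ x a d) *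
            (μ[fun x => (inner ℂ (e c x) (e d x) : ℂ)|C]) x :=
        ae_all_iff.2 fun c => ae_all_iff.2 fun d =>
          ce_inner hle (hel c) (hel d) (hKρA k b c) (hKρA k a d) (hKρb k b c) (hKρb k a d)
      have h6 : ∀ᵐ x ∂μ, ∀ c d, (μ[fun x => (inner ℂ (e c x) (e d x) : ℂ)|C]) x =
          if d = c then 1 else 0 := ae_all_iff.2 fun c => ae_all_iff.2 fun d => hon d c
      filter_upwards [h1, h2, h3, h5, h6, hgram a b] with x hx1 hx2 hx3 hx5 hx6 hx7 hxK
      rw [hx2, hx3, hx7, ind_of_mem hxK] at hx1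
      rw [Finset.sum_apply] at hx1
      simp_rw [Finset.sum_apply, hx5, hx6, ind_of_mem hxK] at hx1
      rw [map_one, one_mul, one_mul] at hx1
      rw [← hx1]
      refine Finset.sum_congr rfl fun c _ => ?_
      rw [Finset.sum_eq_single c]
      · rw [if_pos rfl]
        simp only [one_mul, mul_one]
        ring
      · intro d _ hd
        rw [if_neg hd, mul_zero]
      · intro h
        exact absurd (Finset.mem_univ c) h
    have hall : ∀ᵐ x ∂μ, ∀ k : ℕ, ∀ a b, x ∈ K k →
        ∑ c, ρ x a c * conj (ρ x b c) = if a = b then 1 else 0 :=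
      ae_all_iff.2 fun k => ae_all_iff.2 fun a => ae_all_iff.2 fun b => hk k a b
    filter_upwards [hall] with x hx
    obtain ⟨k, hk⟩ := exists_nat_ge (∑ a, ∑ b, ‖ρ x a b‖)
    have hxK : x ∈ K k := by
      intro a b
      refine le_trans ?_ hk
      refine le_trans ?_ (Finset.single_le_sum (f := fun a => ∑ b, ‖ρ x a b‖)
        (fun i _ => Finset.sum_nonneg fun j _ => norm_nonneg _) (Finset.mem_univ a))
      exact Finset.single_le_sum (f := fun b => ‖ρ x a b‖) (fun i _ => norm_nonneg _)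
        (Finset.mem_univ b)
    rw [Matrix.mem_unitaryGroup_iff]
    ext a b
    rw [Matrix.mul_apply, Matrix.one_apply]
    exact hx k a b hxK
  -- the sum of the square norms
  set s : Ω → ℝ := fun x => ∑ a, ‖e a x‖ ^ 2 with hs
  have hsi : Integrable s μ := integrable_finsetSum _ fun a _ => int_sq (hel a)
  have hsR : s ∘ R =ᵐ[μ] s := by
    filter_upwards [hunit, ae_all_iff.2 hcomp] with x hx hx2
    show ∑ a, ‖e a (R x)‖ ^ 2 = ∑ a, ‖e a x‖ ^ 2
    rw [← unit_norm hx (fun b => e b x)]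
    refine Finset.sum_congr rfl fun a _ => ?_
    rw [← hx2 a, hθ1 x]
  obtain ⟨c0, hc0⟩ := hR.ae_eq_const_of_ae_eq_comp_ae hsi.1 hsR
  have hc0m : c0 = m := by
    have h1 : ∫ x, s x ∂μ = c0 := by
      rw [integral_congr_ae hc0]
      simp
    have h2 : ∫ x, s x ∂μ = m := by
      have h3 : ∀ a, ∫ x, ‖e a x‖ ^ 2 ∂μ = 1 := by
        intro a
        have h4 : ((∫ x, ‖e a x‖ ^ 2 ∂μ : ℝ) : ℂ) = 1 := by
          rw [← integral_complex_ofReal]
          have h5 : ∫ x, (inner ℂ (e a x) (e a x) : ℂ) ∂μ = 1 := by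
            rw [← integral_condExp hle, integral_congr_ae (hon a a)]
            simp
          rw [← h5]
          refine integral_congr_ae (Eventually.of_forall fun x => ?_)
          simp only [inner_self_eq_norm_sq_to_K]
          norm_num
        exact_mod_cast h4
      simp only [hs]
      rw [integral_finsetSum _ fun a _ => int_sq (hel a)]
      simp_rw [h3]
      simp
    rw [← h1, h2]
  refine ⟨ρ, ⟨he, hon, fun G hG => hspan _ (ie_of_mem hG), fun a b =>
    (hρs a b).aestronglyMeasurable, hunit, hcomp, ?_⟩⟩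
  filter_upwards [hc0] with x hx
  have : s x = c0 := hx
  rw [← hc0m]
  exact this

theorem st_FRP : ST_FRP := by
  intro Ω _ μ _ V _ _ _ R R' θ C E m e hS hR hI hθ hθ1 hE he hon hrk
  exact frp hS hR hI hθ hθ1 hE e he hon hrk

end Pool.Agent.Helper72.TWR
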