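import Pool.Agent.Helper72.TWR.FRE
import Pool.Agent.Helper72.TWR.FRP

/-!
Row MIN of the sheet TW: modules of finite rank contain minimal ones.
-/

open MeasureTheory Filter Topology Finset
open scoped ComplexConjugate

namespace Pool.Agent.Helper72.TWR

open Pool.Agent.Helper98.TW
open Pool.Agent.Helper73.TWR (pull cec ind ind_mul am_ind)

variable {Ω : Type} [m0 : MeasurableSpace Ω]
variable {V : Type} [NormedAddCommGroup V] [InnerProductSpace ℂ V]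
variable {μ : Measure Ω}

/-- combinations of elements of a module with coefficients in `C` belong to the module -/
theorem mem_of_comb {C : SA Ω} (hle : Lm C) {E : Submodule ℂ (Lp V 2 μ)} (hE : C0 μ C E) {m : ℕ}
    (e : Fin m → Lp V 2 μ) (he : ∀ a, e a ∈ E) (c : Fin m → Ω → ℂ)
    (hc : ∀ a, StronglyMeasurable[C] (c a)) {G : Lp V 2 μ}
    (hG : ∀ᵐ x ∂μ, G x = ∑ a, c a x • e a x) : G ∈ E := by
  set K : ℕ → Set Ω := fun k => {x | ∀ a, ‖c a x‖ ≤ k} with hK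
  have hKC : ∀ k, MeasurableSet[C] (K k) := by
    intro k
    have : K k = ⋂ a, {x | ‖c a x‖ ≤ k} := by
      ext x
      simp [hK]
    rw [this]
    refine @MeasurableSet.iInter _ _ C _ _ fun a => ?_
    exact @mle Ω C _ _ (hc a).norm.measurable (@measurable_const _ _ _ C _)
  have hKA : ∀ k, AM μ C (ind (K k)) := fun k => am_ind μ (hKC k)
  refine mem_of_ie (IE.lim hE.closed (Lp.memLp G) K (fun k => ?_) ?_)
  · have h1 : IE μ E (fun x => ∑ a, (ind (K k) x * c a x) • e a x) := by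
      refine IE.sum _ fun a _ => (ie_of_mem (he a)).smul hle hE
        ((hKA k).mul (hc a).aestronglyMeasurable) ⟨k, Eventually.of_forall fun x => ?_⟩
      by_cases hx : x ∈ K k
      · rw [ind_of_mem hx, one_mul]
        exact hx a
      · rw [ind_of_not hx, zero_mul, norm_zero]
        positivity
    refine h1.congr ?_
    filter_upwards [hG] with x hx
    rw [← ind_smul, hx, Finset.smul_sum]
    refine Finset.sum_congr rfl fun a _ => ?_
    rw [smul_smul]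
  · refine Eventually.of_forall fun x => ?_
    obtain ⟨n, hn⟩ := exists_nat_ge (∑ a, ‖c a x‖)
    filter_upwards [eventually_ge_atTop n] with k hk a
    have h1 : ‖c a x‖ ≤ ∑ a, ‖c a x‖ :=
      Finset.single_le_sum (f := fun a => ‖c a x‖) (fun i _ => norm_nonneg _) (Finset.mem_univ a)
    have h2 : (n : ℝ) ≤ k := by exact_mod_cast hk
    linarith

theorem Rk.mono {C : SA Ω} {E E' : Submodule ℂ (Lp V 2 μ)} {n : ℕ} (h : Rk μ C E n)
    (h' : E' ≤ E) : Rk μ C E' n := fun m e he hon => h m e (fun a => h' (he a)) hon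

theorem min [IsProbabilityMeasure μ] {R R' : Ω → Ω} {C : SA Ω} {θ : Ω → V →L[ℂ] V}
    {E : Submodule ℂ (Lp V 2 μ)} {n : ℕ}
    (hS : Sys μ R R') (hR : Ergodic R μ) (hI : IA μ C R R') (hθ : AEStronglyMeasurable θ μ)
    (hθ1 : ∀ x v, ‖θ x v‖ = ‖v‖) (hE : CM μ C R θ E) (hE0 : E ≠ ⊥) (hn : Rk μ C E n) :
    ∃ (E' : Submodule ℂ (Lp V 2 μ)) (m : ℕ) (e : Fin m → Lp V 2 μ)
      (ρ : Ω → Matrix (Fin m) (Fin m) ℂ), E' ≤ E ∧ Mi μ C R θ E' ∧ 1 ≤ m ∧ m ≤ n ∧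
      Rk μ C E' m ∧ Fr μ C R θ E' e ρ := by
  classical
  have hle : Lm C := hI.1
  have hex : ∃ m, ∃ E' : Submodule ℂ (Lp V 2 μ), CM μ C R θ E' ∧ E' ≤ E ∧ E' ≠ ⊥ ∧
    Rk μ C E' m := ⟨n, E, hE, le_refl _, hE0, hn⟩
  obtain ⟨E', hE', hle', hE0', hrk'⟩ := Nat.find_spec hex
  have hmin : ∀ m, m < Nat.find hex → ¬ ∃ E' : Submodule ℂ (Lp V 2 μ), CM μ C R θ E' ∧ E' ≤ E ∧
    E' ≠ ⊥ ∧ Rk μ C E' m := fun m hm => Nat.find_min hex hm
  set r := Nat.find hex with hr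
  have hrn : r ≤ n := Nat.find_le ⟨E, hE, le_refl _, hE0, hn⟩
  have hmax : ∀ E'' : Submodule ℂ (Lp V 2 μ), CM μ C R θ E'' → E'' ≤ E' → E'' ≠ ⊥ →
      ∃ e : Fin r → Lp V 2 μ, 1 ≤ r ∧ (∀ a, e a ∈ E'') ∧ ON μ C e := by
    intro E'' hC'' hle'' h0''
    obtain ⟨m, e, h1, h2, h3, h4, h5⟩ :=
      fre hS hR hI hθ hθ1 hC'' h0'' (Rk.mono hrk' hle'')
    have h6 : m = r := by
      by_contra hne
      exact hmin m (lt_of_le_of_ne h2 hne) ⟨E'', hC'', hle''.trans hle', h0'', h5⟩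
    subst h6
    exact ⟨e, h1, h3, h4⟩
  obtain ⟨e, hr1, he, hon⟩ := hmax E' hE' (le_refl _) hE0'
  obtain ⟨ρ, hρ⟩ := frp hS hR hI hθ hθ1 hE' e he hon hrk'
  refine ⟨E', r, e, ρ, hle', ⟨hE', hE0', ?_⟩, hr1, hrn, hrk', hρ⟩
  intro E'' hC'' hle'' h0''
  obtain ⟨e'', _, he'', hon''⟩ := hmax E'' hC'' hle'' h0''
  obtain ⟨ρ'', hρ''⟩ := frp hS hR hI hθ hθ1 hE' e'' (fun a => hle'' (he'' a)) hon'' hrk'
  refine le_antisymm hle'' fun G hG => ?_
  exact mem_of_comb hle hC''.toC0 e'' he'' _ (fun a => stronglyMeasurable_condExp)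
    (hρ''.span G hG)

theorem st_MIN : ST_MIN := by
  intro Ω _ μ _ V _ _ _ R R' θ C E n hS hR hI hθ hθ1 hE hE0 hn
  exact min hS hR hI hθ hθ1 hE hE0 hn

end Pool.Agent.Helper72.TWR
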