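import Pool.Agent.Helper72.TWR.Frame

/-!
Row FRE of the sheet TW: modules of finite rank have maximal orthonormal families.
-/

open MeasureTheory Filter Topology Finset
open scoped ComplexConjugate

namespace Pool.Agent.Helper72.TWR

open Pool.Agent.Helper98.TW

theorem fre {Ω : Type} [MeasurableSpace Ω] {μ : Measure Ω} [IsProbabilityMeasure μ]
    {V : Type} [NormedAddCommGroup V] [InnerProductSpace ℂ V]
    {R R' : Ω → Ω} {θ : Ω → V →L[ℂ] V} {C : SA Ω} {E : Submodule ℂ (Lp V 2 μ)} {n : ℕ}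
    (hS : Sys μ R R') (hR : Ergodic R μ) (hI : IA μ C R R') (hθ : AEStronglyMeasurable θ μ)
    (hθ1 : ∀ x v, ‖θ x v‖ = ‖v‖) (hE : CM μ C R θ E) (hE0 : E ≠ ⊥) (hn : Rk μ C E n) :
    ∃ (m : ℕ) (e : Fin m → Lp V 2 μ), 1 ≤ m ∧ m ≤ n ∧ (∀ a, e a ∈ E) ∧ ON μ C e ∧
      Rk μ C E m := by
  classical
  set P : ℕ → Prop := fun m => ∃ e : Fin m → Lp V 2 μ, (∀ a, e a ∈ E) ∧ ON μ C e with hP
  have hPn : ∀ m, P m → m ≤ n := fun m ⟨e, h1, h2⟩ => hn m e h1 h2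
  have hP1 : P 1 := by
    obtain ⟨G, hG, hG0⟩ := E.ne_bot_iff.1 hE0
    refine ext_fam hS hR hI hθ hθ1 hE (m := 0) (fun a => a.elim0) (fun a => a.elim0)
      (fun a => a.elim0) (ie_of_mem hG) ?_
    intro h
    apply hG0
    refine Lp.ext ?_
    filter_upwards [h, Lp.coeFn_zero V 2 μ] with x hx hx0
    rw [hx, hx0]
    simp
  refine ⟨Nat.findGreatest P n, ?_⟩
  have h1 : 1 ≤ Nat.findGreatest P n := Nat.le_findGreatest (hPn 1 hP1) hP1
  have h2 : P (Nat.findGreatest P n) := Nat.findGreatest_spec (hPn 1 hP1) hP1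
  obtain ⟨e, he, hon⟩ := h2
  refine ⟨e, h1, Nat.findGreatest_le n, he, hon, ?_⟩
  intro m' e' he' hon'
  exact Nat.le_findGreatest (hn m' e' he' hon') ⟨e', he', hon'⟩

theorem st_FRE : ST_FRE := by
  intro Ω _ μ _ V _ _ _ R R' θ C E n hS hR hI hθ hθ1 hE hE0 hn
  exact fre hS hR hI hθ hθ1 hE hE0 hn

end Pool.Agent.Helper72.TWR
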