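import Pool.Agent.Helper72.TWR.Trans

/-!
Rows FRE, FRP, MIN of the sheet TW: frames and minimal modules.
-/

open MeasureTheory Filter Topology Finset
open scoped ComplexConjugate

namespace Pool.Agent.Helper72.TWR

open Pool.Agent.Helper98.TW
open Pool.Agent.Helper73.TWR (pull cec ind ind_mul am_ind)

theorem mle {Ω : Type} [MeasurableSpace Ω] {f g : Ω → ℝ} (hf : Measurable f)
    (hg : Measurable g) : MeasurableSet {x | f x ≤ g x} := measurableSet_le hf hg

variable {Ω : Type} [m0 : MeasurableSpace Ω]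
variable {V : Type} [NormedAddCommGroup V] [InnerProductSpace ℂ V]
variable {μ : Measure Ω} {E : Submodule ℂ (Lp V 2 μ)}

theorem bdd_mul' {c d : Ω → ℂ} (hc : ∃ B : ℝ, ∀ᵐ x ∂μ, ‖c x‖ ≤ B)
    (hd : ∃ B : ℝ, ∀ᵐ x ∂μ, ‖d x‖ ≤ B) : ∃ B : ℝ, ∀ᵐ x ∂μ, ‖c x * d x‖ ≤ B := by
  obtain ⟨B, hB⟩ := hc
  obtain ⟨B', hB'⟩ := hd
  refine ⟨|B| * |B'|, ?_⟩
  filter_upwards [hB, hB'] with x hx hx'
  rw [norm_mul]
  exact mul_le_mul (hx.trans (le_abs_self B)) (hx'.trans (le_abs_self B')) (norm_nonneg _)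
    (abs_nonneg _)

theorem am_conj {C : SA Ω} {c : Ω → ℂ} (hc : AM μ C c) : AM μ C (fun x => conj (c x)) :=
  Complex.continuous_conj.comp_aestronglyMeasurable hc

/-- pull-out of coefficients from inner products -/
theorem ce_inner [IsProbabilityMeasure μ] {C : SA Ω} (hle : Lm C) {F G : Ω → V}
    (hF : MemLp F 2 μ) (hG : MemLp G 2 μ) {c d : Ω → ℂ} (hc : AM μ C c) (hd : AM μ C d)
    (hcb : ∃ B : ℝ, ∀ᵐ x ∂μ, ‖c x‖ ≤ B) (hdb : ∃ B : ℝ, ∀ᵐ x ∂μ, ‖d x‖ ≤ B) :
    μ[fun x => (inner ℂ (c x • F x) (d x • G x) : ℂ)|C] =ᵐ[μ]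
      fun x => conj (c x) * d x * (μ[fun x => (inner ℂ (F x) (G x) : ℂ)|C]) x := by
  have h1 : AM μ C (fun x => conj (c x) * d x) := (am_conj hc).mul hd
  have hcb' : ∃ B : ℝ, ∀ᵐ x ∂μ, ‖conj (c x)‖ ≤ B := by
    obtain ⟨B, hB⟩ := hcb
    refine ⟨B, ?_⟩
    filter_upwards [hB] with x hx
    rwa [RCLike.norm_conj]
  obtain ⟨B, hB⟩ := bdd_mul' hcb' hdb
  have hi := int_inner hF hG
  have h2 := pull h1 (hi.bdd_mul (c := B) (h1.mono hle) hB) hi
  refine EventuallyEq.trans (condExp_congr_ae (Eventually.of_forall fun x => ?_)) h2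
  show (inner ℂ (c x • F x) (d x • G x) : ℂ) = conj (c x) * d x * inner ℂ (F x) (G x)
  rw [inner_smul_left, inner_smul_right]
  ring

theorem ce_conj [IsProbabilityMeasure μ] {C : SA Ω} {f : Ω → ℂ} (hf : Integrable f μ) :
    μ[fun x => conj (f x)|C] =ᵐ[μ] fun x => conj ((μ[f|C]) x) := by
  have h := ContinuousLinearMap.comp_condExp_comm (m := C) hf
    (Complex.conjCLE : ℂ →L[ℝ] ℂ)
  exact h.symm

theorem ce_flip [IsProbabilityMeasure μ] {C : SA Ω} {F G : Ω → V} (hF : MemLp F 2 μ)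
    (hG : MemLp G 2 μ) : μ[fun x => (inner ℂ (F x) (G x) : ℂ)|C] =ᵐ[μ]
      fun x => conj ((μ[fun x => (inner ℂ (G x) (F x) : ℂ)|C]) x) := by
  refine EventuallyEq.trans (condExp_congr_ae (Eventually.of_forall fun x => ?_))
    (ce_conj (int_inner hG hF))
  exact (inner_conj_symm (F x) (G x)).symm

/-- normalisation on a set of positive measure -/
theorem normalise [IsProbabilityMeasure μ] {C : SA Ω} (hle : Lm C) {G : Ω → V}
    (hG : MemLp G 2 μ) (hne : ¬ G =ᵐ[μ] 0) :
    ∃ (B : Set Ω) (c : Ω → ℂ), MeasurableSet B ∧ AM μ C (ind B) ∧ μ B ≠ 0 ∧ AM μ C c ∧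
      (∃ K : ℝ, ∀ᵐ x ∂μ, ‖c x‖ ≤ K) ∧
      μ[fun x => (inner ℂ (c x • G x) (c x • G x) : ℂ)|C] =ᵐ[μ] ind B := by
  have : IsFiniteMeasure (μ.trim hle) := isFiniteMeasure_trim hle
  have : SigmaFinite (μ.trim hle) := IsFiniteMeasure.toSigmaFinite _
  set q : Ω → ℝ := μ[fun x => ‖G x‖ ^ 2|C] with hq
  have hqs : StronglyMeasurable[C] q := stronglyMeasurable_condExp
  have hq0 : ∀ᵐ x ∂μ, 0 ≤ q x := condExp_nonneg (Eventually.of_forall fun x => by positivity)
  have hsq := int_sq hG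
  have hQ : μ[fun x => (inner ℂ (G x) (G x) : ℂ)|C] =ᵐ[μ] fun x => ((q x : ℝ) : ℂ) := by
    have h := ContinuousLinearMap.comp_condExp_comm (m := C) hsq Complex.ofRealCLM
    refine EventuallyEq.trans (condExp_congr_ae (Eventually.of_forall fun x => ?_)) h.symm
    simp only [inner_self_eq_norm_sq_to_K]
    simp
  set B : ℕ → Set Ω := fun k => {x | 1 / ((k : ℝ) + 1) ≤ q x ∧ q x ≤ (k : ℝ) + 1} with hBdef
  have hBC : ∀ k, MeasurableSet[C] (B k) := by
    intro k
    have h1 : MeasurableSet[C] {x | 1 / ((k : ℝ) + 1) ≤ q x} :=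
      @mle Ω C _ _ (@measurable_const _ _ _ C _) hqs.measurable
    have h2 : MeasurableSet[C] {x | q x ≤ (k : ℝ) + 1} :=
      @mle Ω C _ _ hqs.measurable (@measurable_const _ _ _ C _)
    exact @MeasurableSet.inter _ C _ _ h1 h2
  have hex : ∃ k, μ (B k) ≠ 0 := by
    by_contra hcon
    push Not at hcon
    apply hne
    have h1 : ∀ᵐ x ∂μ, ∀ k, x ∉ B k := by
      rw [ae_all_iff]
      intro k
      exact measure_eq_zero_iff_ae_notMem.1 (hcon k)
    have h2 : ∀ᵐ x ∂μ, q x = 0 := by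
      filter_upwards [h1, hq0] with x hx hx0
      by_contra hne'
      have hpos : 0 < q x := lt_of_le_of_ne hx0 (Ne.symm hne')
      obtain ⟨k1, hk1⟩ := exists_nat_gt (q x)
      obtain ⟨k2, hk2⟩ := exists_nat_gt (1 / q x)
      refine hx (k1 + k2) ⟨?_, ?_⟩
      · rw [div_le_iff₀ (by positivity)]
        have h3 : 1 < q x * k2 := by
          rw [div_lt_iff₀ hpos] at hk2
          linarith
        push_cast
        have h4 : 0 ≤ q x * k1 := by positivity
        nlinarith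
      · push_cast
        have : (0 : ℝ) ≤ k2 := Nat.cast_nonneg _
        linarith
    have h3 : ∫ x, ‖G x‖ ^ 2 ∂μ = 0 := by
      rw [← integral_condExp hle]
      rw [integral_congr_ae (show μ[fun x => ‖G x‖ ^ 2|C] =ᵐ[μ] fun _ => (0 : ℝ) from h2)]
      simp
    have h4 := (integral_eq_zero_iff_of_nonneg (fun x => by positivity) hsq).1 h3
    filter_upwards [h4] with x hx
    have : ‖G x‖ ^ 2 = 0 := hx
    simpa using this
  obtain ⟨k, hk⟩ := hex
  have hBm : MeasurableSet (B k) := hle _ (hBC k)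
  have hBA : AM μ C (ind (B k)) := am_ind μ (hBC k)
  set c : Ω → ℂ := fun x => ind (B k) x * ((1 / √(q x) : ℝ) : ℂ) with hc
  have hcA : AM μ C c := by
    refine hBA.mul ?_
    have h1 : Measurable[C] (fun x => 1 / √(q x)) :=
      (hqs.measurable.sqrt).const_div 1
    have h2 : StronglyMeasurable[C] (fun x => ((1 / √(q x) : ℝ) : ℂ)) :=
      Complex.continuous_ofReal.comp_stronglyMeasurable h1.stronglyMeasurable
    exact h2.aestronglyMeasurable
  have hcb : ∃ K : ℝ, ∀ᵐ x ∂μ, ‖c x‖ ≤ K := by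
    refine ⟨√((k : ℝ) + 1), Eventually.of_forall fun x => ?_⟩
    by_cases hx : x ∈ B k
    · simp only [hc, ind_of_mem hx, one_mul]
      rw [Complex.norm_real, Real.norm_eq_abs, abs_of_nonneg (by positivity)]
      rw [one_div, ← Real.sqrt_inv]
      refine Real.sqrt_le_sqrt ?_
      have h1 := hx.1
      have hpos : 0 < q x := lt_of_lt_of_le (by positivity) h1
      rw [inv_le_comm₀ hpos (by positivity)]
      simpa using h1
    · simp only [hc, ind_of_not hx, zero_mul, norm_zero]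
      positivity
  refine ⟨B k, c, hBm, hBA, hk, hcA, hcb, ?_⟩
  filter_upwards [ce_inner hle hG hG hcA hcA hcb hcb, hQ] with x hx hx2
  rw [hx, hx2]
  by_cases hxB : x ∈ B k
  · have hpos : 0 < q x := lt_of_lt_of_le (by positivity) hxB.1
    simp only [hc, ind_of_mem hxB, one_mul]
    rw [Complex.conj_ofReal, ← Complex.ofReal_mul, ← Complex.ofReal_mul]
    have : 1 / √(q x) * (1 / √(q x)) * q x = 1 := by
      have h1 : √(q x) * √(q x) = q x := Real.mul_self_sqrt hpos.le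
      have h2 : √(q x) ≠ 0 := (Real.sqrt_pos.2 hpos).ne'
      field_simp
      nlinarith
    rw [this, Complex.ofReal_one]
  · simp only [hc, ind_of_not hxB, zero_mul, map_zero]

/-- extension of orthonormal families -/
theorem ext_fam [IsProbabilityMeasure μ] {R R' : Ω → Ω} {C : SA Ω} {θ : Ω → V →L[ℂ] V}
    (hS : Sys μ R R') (hR : Ergodic R μ) (hI : IA μ C R R') (hθ : AEStronglyMeasurable θ μ)
    (hθ1 : ∀ x v, ‖θ x v‖ = ‖v‖) (hE : CM μ C R θ E) {m : ℕ} (e : Fin m → Lp V 2 μ)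
    (he : ∀ a, e a ∈ E) (hon : ON μ C e) {G : Ω → V} (hG : IE μ E G)
    (hne : ¬ ∀ᵐ x ∂μ, G x = ∑ a, (μ[fun x => (inner ℂ (e a x) (G x) : ℂ)|C]) x • e a x) :
    ∃ e' : Fin (m + 1) → Lp V 2 μ, (∀ a, e' a ∈ E) ∧ ON μ C e' := by
  have hle : Lm C := hI.1
  set c : Fin m → Ω → ℂ := fun a => μ[fun x => (inner ℂ (e a x) (G x) : ℂ)|C] with hc
  have hcs : ∀ a, StronglyMeasurable[C] (c a) := fun a => stronglyMeasurable_condExp
  have hel : ∀ a, MemLp (e a) 2 μ := fun a => Lp.memLp (e a)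
  set K : ℕ → Set Ω := fun k => {x | ∀ a, ‖c a x‖ ≤ k} with hK
  have hKC : ∀ k, MeasurableSet[C] (K k) := by
    intro k
    have : K k = ⋂ a, {x | ‖c a x‖ ≤ k} := by
      ext x
      simp [hK]
    rw [this]
    refine @MeasurableSet.iInter _ _ C _ _ fun a => ?_
    exact @mle Ω C _ _ (hcs a).norm.measurable (@measurable_const _ _ _ C _)
  have hKA : ∀ k, AM μ C (ind (K k)) := fun k => am_ind μ (hKC k)
  have hKc : ∀ k a x, ‖ind (K k) x * c a x‖ ≤ k := by
    intro k a x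
    by_cases hx : x ∈ K k
    · rw [ind_of_mem hx, one_mul]
      exact hx a
    · rw [ind_of_not hx, zero_mul, norm_zero]
      positivity
  have hKcA : ∀ k a, AM μ C (fun x => ind (K k) x * c a x) := fun k a =>
    (hKA k).mul (hcs a).aestronglyMeasurable
  set H : ℕ → Ω → V := fun k x =>
    ind (K k) x • G x - ∑ a, (ind (K k) x * c a x) • e a x with hH
  have hHE : ∀ k, IE μ E (H k) := by
    intro k
    refine IE.sub (hG.smul hle hE.toC0 (hKA k) ⟨1, Eventually.of_forall fun x => ind_le _ x⟩)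
      (IE.sum _ fun a _ => ?_)
    exact (ie_of_mem (he a)).smul hle hE.toC0 (hKcA k a)
      ⟨k, Eventually.of_forall fun x => hKc k a x⟩
  have hex : ∃ k, ¬ H k =ᵐ[μ] 0 := by
    by_contra hcon
    push Not at hcon
    apply hne
    filter_upwards [ae_all_iff.2 hcon] with x hx
    obtain ⟨k, hk⟩ := exists_nat_ge (∑ a, ‖c a x‖)
    have hxK : x ∈ K k := by
      intro a
      exact (Finset.single_le_sum (f := fun a => ‖c a x‖) (fun i _ => norm_nonneg _)
        (Finset.mem_univ a)).trans hk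
    have h1 : H k x = 0 := hx k
    simp only [hH, ind_of_mem hxK, one_smul, one_mul] at h1
    exact sub_eq_zero.1 h1
  obtain ⟨k, hk⟩ := hex
  -- orthogonality
  have hort : ∀ b, μ[fun x => (inner ℂ (e b x) (H k x) : ℂ)|C] =ᵐ[μ] 0 := by
    intro b
    have hone : AM μ C (fun _ => (1 : ℂ)) := aestronglyMeasurable_const
    have honeb : ∃ B : ℝ, ∀ᵐ x ∂μ, ‖(fun _ : Ω => (1 : ℂ)) x‖ ≤ B :=
      ⟨1, Eventually.of_forall fun x => by simp⟩
    have h1 := ce_inner hle (hel b) hG.ml hone (hKA k) honeb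
      ⟨1, Eventually.of_forall fun x => ind_le _ x⟩
    have h2 : ∀ a, _ := fun a => ce_inner hle (hel b) (hel a) hone (hKcA k a) honeb
      ⟨(k : ℝ), Eventually.of_forall fun x => hKc k a x⟩
    have hi1 : Integrable (fun x => (inner ℂ ((1 : ℂ) • e b x) (ind (K k) x • G x) : ℂ)) μ :=
      int_inner (ml_smul hle (hel b) hone honeb)
        (ml_smul hle hG.ml (hKA k) ⟨1, Eventually.of_forall fun x => ind_le _ x⟩)
    have hi2 : ∀ a, Integrable (fun x =>
        (inner ℂ ((1 : ℂ) • e b x) ((ind (K k) x * c a x) • e a x) : ℂ)) μ := fun a =>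
      int_inner (ml_smul hle (hel b) hone honeb)
        (ml_smul hle (hel a) (hKcA k a) ⟨(k : ℝ), Eventually.of_forall fun x => hKc k a x⟩)
    have h3 : (fun x => (inner ℂ (e b x) (H k x) : ℂ)) =
        (fun x => (inner ℂ ((1 : ℂ) • e b x) (ind (K k) x • G x) : ℂ)) -
        ∑ a, (fun x => (inner ℂ ((1 : ℂ) • e b x) ((ind (K k) x * c a x) • e a x) : ℂ)) := by
      funext x
      simp only [hH, Pi.sub_apply, Finset.sum_apply, one_smul, inner_sub_right, inner_sum]
    rw [h3]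
    have h4 := condExp_sub hi1 (integrable_finsetSum' univ fun a _ => hi2 a) C
    have h5 := condExp_finsetSum (s := univ) (fun a _ => hi2 a) C
    have h6 : ∀ᵐ x ∂μ, ∀ a, _ := ae_all_iff.2 h2
    have h7 : ∀ᵐ x ∂μ, ∀ a, _ := ae_all_iff.2 fun a => hon a b
    filter_upwards [h4, h5, h6, h7, h1] with x hx4 hx5 hx6 hx7 hx1
    rw [hx4, Pi.sub_apply, hx5, hx1, Finset.sum_apply]
    have h8 : ∀ a, (μ[fun x =>
        (inner ℂ ((1 : ℂ) • e b x) ((ind (K k) x * c a x) • e a x) : ℂ)|C]) x =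
        if a = b then ind (K k) x * c b x else 0 := by
      intro a
      rw [hx6 a, hx7 a]
      by_cases hab : a = b
      · subst hab
        simp
      · simp [hab]
    simp_rw [h8]
    rw [Finset.sum_ite_eq' univ b, if_pos (Finset.mem_univ b)]
    simp [hc]
  -- normalisation
  obtain ⟨B, d, hBm, hBA, hB0, hdA, hdb, hnn⟩ := normalise hle (hHE k).ml hk
  have hBb : ∃ K : ℝ, ∀ᵐ x ∂μ, ‖ind B x‖ ≤ K := ⟨1, Eventually.of_forall fun x => ind_le _ x⟩
  set g : Fin (m + 1) → Ω → V :=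
    Fin.cons (fun x => d x • H k x) (fun a x => ind B x • e a x) with hg
  have hg0 : g 0 = fun x => d x • H k x := by simp [hg]
  have hgs : ∀ a : Fin m, g a.succ = fun x => ind B x • e a x := fun a => by simp [hg]
  refine transport hS hR hI hθ hθ1 hE g ?_ hBm hBA hB0 ?_
  · intro a
    refine Fin.cases ?_ (fun a => ?_) a
    · rw [hg0]
      exact (hHE k).smul hle hE.toC0 hdA hdb
    · rw [hgs]
      exact (ie_of_mem (he a)).smul hle hE.toC0 hBA hBb
  · intro a b
    refine Fin.cases ?_ (fun a => ?_) a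
    · refine Fin.cases ?_ (fun b => ?_) b
      · rw [hg0]
        filter_upwards [hnn] with x hx
        rw [hx]
        simp
      · rw [hg0, hgs]
        filter_upwards [ce_inner hle (hel b) (hHE k).ml hBA hdA hBb hdb, hort b] with x hx hx2
        rw [hx, hx2, if_neg (Fin.succ_ne_zero b).symm]
        simp
    · refine Fin.cases ?_ (fun b => ?_) b
      · rw [hg0, hgs]
        filter_upwards [ce_inner hle (hHE k).ml (hel a) hdA hBA hdb hBb,
          ce_flip (C := C) (hHE k).ml (hel a), hort a] with x hx hx2 hx3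
        rw [hx, hx2, hx3, if_neg (Fin.succ_ne_zero a)]
        simp
      · rw [hgs, hgs]
        filter_upwards [ce_inner hle (hel b) (hel a) hBA hBA hBb hBb, hon a b] with x hx hx2
        rw [hx, hx2]
        by_cases hab : a = b
        · subst hab
          rw [if_pos rfl, if_pos rfl]
          by_cases hxB : x ∈ B
          · simp [ind_of_mem hxB]
          · simp [ind_of_not hxB]
        · rw [if_neg hab, if_neg (fun h => hab (Fin.succ_injective _ h)), mul_zero, mul_zero]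

end Pool.Agent.Helper72.TWR
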