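import Pool.Agent.Helper73.TWR.CEC

/-!
Modules over a factor: elements of a module represented by functions, limits, iterates.
-/

open MeasureTheory Filter Topology Finset
open scoped ComplexConjugate

namespace Pool.Agent.Helper72.TWR

open Pool.Agent.Helper98.TW
open Pool.Agent.Helper73.TWR (pull cec ind ind_mul am_ind)

variable {Ω : Type} [m0 : MeasurableSpace Ω]
variable {V : Type} [NormedAddCommGroup V] [InnerProductSpace ℂ V]

/-- `F` represents an element of `E` -/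
def IE (μ : Measure Ω) (E : Submodule ℂ (Lp V 2 μ)) (F : Ω → V) : Prop :=
  ∃ G ∈ E, (G : Ω → V) =ᵐ[μ] F

variable {μ : Measure Ω} {E : Submodule ℂ (Lp V 2 μ)}

theorem ie_of_mem {G : Lp V 2 μ} (h : G ∈ E) : IE μ E G := ⟨G, h, Filter.EventuallyEq.rfl⟩

theorem mem_of_ie {G : Lp V 2 μ} (h : IE μ E G) : G ∈ E := by
  obtain ⟨G', h1, h2⟩ := h
  have : G' = G := Lp.ext h2
  rwa [← this]

theorem IE.congr {F F' : Ω → V} (h : IE μ E F) (h' : F =ᵐ[μ] F') : IE μ E F' := by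
  obtain ⟨G, h1, h2⟩ := h
  exact ⟨G, h1, h2.trans h'⟩

theorem IE.ml {F : Ω → V} (h : IE μ E F) : MemLp F 2 μ := by
  obtain ⟨G, _, h2⟩ := h
  exact (memLp_congr_ae h2).1 (Lp.memLp G)

theorem IE.exl {F : Ω → V} (h : IE μ E F) : ∃ G : Lp V 2 μ, G ∈ E ∧ (G : Ω → V) =ᵐ[μ] F := by
  obtain ⟨G, h1, h2⟩ := h
  exact ⟨G, h1, h2⟩

theorem IE.zero : IE μ E (fun _ => (0 : V)) :=
  ⟨0, E.zero_mem, Lp.coeFn_zero V 2 μ⟩

theorem IE.add {F F' : Ω → V} (h : IE μ E F) (h' : IE μ E F') :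
    IE μ E (fun x => F x + F' x) := by
  obtain ⟨G, h1, h2⟩ := h
  obtain ⟨G', h1', h2'⟩ := h'
  refine ⟨G + G', E.add_mem h1 h1', ?_⟩
  filter_upwards [Lp.coeFn_add G G', h2, h2'] with x hx hx1 hx2
  rw [hx, Pi.add_apply, hx1, hx2]

theorem IE.sub {F F' : Ω → V} (h : IE μ E F) (h' : IE μ E F') :
    IE μ E (fun x => F x - F' x) := by
  obtain ⟨G, h1, h2⟩ := h
  obtain ⟨G', h1', h2'⟩ := h'
  refine ⟨G - G', E.sub_mem h1 h1', ?_⟩
  filter_upwards [Lp.coeFn_sub G G', h2, h2'] with x hx hx1 hx2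
  rw [hx, Pi.sub_apply, hx1, hx2]

theorem IE.sum {ι : Type} (s : Finset ι) {F : ι → Ω → V} (h : ∀ i ∈ s, IE μ E (F i)) :
    IE μ E (fun x => ∑ i ∈ s, F i x) := by
  classical
  induction s using Finset.induction_on with
  | empty => simpa using IE.zero
  | insert i s hi ih =>
    have h1 := (h i (Finset.mem_insert_self i s)).add
      (ih fun j hj => h j (Finset.mem_insert_of_mem hj))
    exact h1.congr (Eventually.of_forall fun x =>
      (Finset.sum_insert (f := fun i => F i x) hi).symm)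

theorem ml_smul {C : SA Ω} (hC : Lm C) {c : Ω → ℂ} {F : Ω → V} (hF : MemLp F 2 μ)
    (hc : AM μ C c) (hb : ∃ B : ℝ, ∀ᵐ x ∂μ, ‖c x‖ ≤ B) : MemLp (fun x => c x • F x) 2 μ := by
  obtain ⟨B, hB⟩ := hb
  have hc' : AEStronglyMeasurable c μ := hc.mono hC
  refine MemLp.of_le_mul (c := B) hF (hc'.smul hF.1) ?_
  filter_upwards [hB] with x hx
  rw [norm_smul]
  exact mul_le_mul_of_nonneg_right hx (norm_nonneg _)

theorem IE.smul {C : SA Ω} (hC : Lm C) (hE : C0 μ C E) {F : Ω → V} (h : IE μ E F) {c : Ω → ℂ}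
    (hc : AM μ C c) (hb : ∃ B : ℝ, ∀ᵐ x ∂μ, ‖c x‖ ≤ B) : IE μ E (fun x => c x • F x) := by
  have hm := ml_smul hC h.ml hc hb
  obtain ⟨G, h1, h2⟩ := h
  refine ⟨hm.toLp, hE.mul G h1 c hc hb _ ?_, hm.coeFn_toLp⟩
  filter_upwards [hm.coeFn_toLp, h2] with x hx hx2
  rw [hx, hx2]

theorem asm_apply {θ : Ω → V →L[ℂ] V} (hθ : AEStronglyMeasurable θ μ) {F : Ω → V}
    (hF : AEStronglyMeasurable F μ) : AEStronglyMeasurable (fun x => θ x (F x)) μ :=
  (ContinuousLinearMap.id ℂ (V →L[ℂ] V)).aestronglyMeasurable_comp₂ hθ hF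

theorem ml_comp {θ : Ω → V →L[ℂ] V} {R : Ω → Ω} (hR : MeasurePreserving R μ μ)
    (hθ : AEStronglyMeasurable θ μ) (hθ1 : ∀ x v, ‖θ x v‖ = ‖v‖) {F : Ω → V}
    (hF : MemLp F 2 μ) : MemLp (fun x => θ x (F (R x))) 2 μ := by
  have h1 : MemLp (fun x => F (R x)) 2 μ := hF.comp_measurePreserving hR
  refine h1.of_le (asm_apply hθ h1.1) (Eventually.of_forall fun x => ?_)
  rw [hθ1]

theorem IE.comp {C : SA Ω} {R : Ω → Ω} {θ : Ω → V →L[ℂ] V} (hE : CM μ C R θ E)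
    (hR : MeasurePreserving R μ μ) (hθ : AEStronglyMeasurable θ μ)
    (hθ1 : ∀ x v, ‖θ x v‖ = ‖v‖) {F : Ω → V} (h : IE μ E F) :
    IE μ E (fun x => θ x (F (R x))) := by
  have hm := ml_comp hR hθ hθ1 h.ml
  obtain ⟨G, h1, h2⟩ := h
  refine ⟨hm.toLp, hE.comp G h1 _ ?_, hm.coeFn_toLp⟩
  filter_upwards [hm.coeFn_toLp, hR.quasiMeasurePreserving.ae_eq_comp h2] with x hx hx2
  rw [hx]
  have : G (R x) = F (R x) := hx2
  rw [this]

theorem IE.wi {C : SA Ω} {R : Ω → Ω} {θ : Ω → V →L[ℂ] V} (hE : CM μ C R θ E)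
    (hR : MeasurePreserving R μ μ) (hθ : AEStronglyMeasurable θ μ)
    (hθ1 : ∀ x v, ‖θ x v‖ = ‖v‖) {F : Ω → V} (h : IE μ E F) (n : ℕ) :
    IE μ E (Wi θ R n F) := by
  induction n with
  | zero => exact h
  | succ n ih =>
    have := IE.comp hE hR hθ hθ1 ih
    unfold Wi at this ⊢
    rw [Function.iterate_succ_apply']
    exact this

theorem inner_iso {θ : V →L[ℂ] V} (h : ∀ v, ‖θ v‖ = ‖v‖) (v w : V) :
    (inner ℂ (θ v) (θ w) : ℂ) = inner ℂ v w := by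
  let L : V →ₗᵢ[ℂ] V := ⟨(θ : V →ₗ[ℂ] V), h⟩
  exact L.inner_map_map v w

omit m0 in
theorem inner_wi {R : Ω → Ω} {θ : Ω → V →L[ℂ] V} (hθ1 : ∀ x v, ‖θ x v‖ = ‖v‖)
    (F F' : Ω → V) (n : ℕ) (x : Ω) :
    (inner ℂ (Wi θ R n F x) (Wi θ R n F' x) : ℂ) = inner ℂ (F (R^[n] x)) (F' (R^[n] x)) := by
  induction n generalizing x with
  | zero => rfl
  | succ n ih =>
    have h1 : ∀ G : Ω → V, Wi θ R (n + 1) G x = θ x (Wi θ R n G (R x)) := by
      intro G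
      unfold Wi
      rw [Function.iterate_succ_apply']
    rw [h1, h1, inner_iso (hθ1 x), ih]
    rfl

omit m0 in
theorem norm_wi {R : Ω → Ω} {θ : Ω → V →L[ℂ] V} (hθ1 : ∀ x v, ‖θ x v‖ = ‖v‖)
    (F : Ω → V) (n : ℕ) (x : Ω) : ‖Wi θ R n F x‖ = ‖F (R^[n] x)‖ := by
  induction n generalizing x with
  | zero => rfl
  | succ n ih =>
    have h1 : ∀ G : Ω → V, Wi θ R (n + 1) G x = θ x (Wi θ R n G (R x)) := by
      intro G
      unfold Wi
      rw [Function.iterate_succ_apply']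
    rw [h1, hθ1 x, ih]
    rfl

theorem int_inner {F G : Ω → V} (hF : MemLp F 2 μ) (hG : MemLp G 2 μ) :
    Integrable (fun x => (inner ℂ (F x) (G x) : ℂ)) μ := by
  refine (L2.integrable_inner (𝕜 := ℂ) hF.toLp hG.toLp).congr ?_
  filter_upwards [hF.coeFn_toLp, hG.coeFn_toLp] with x hx hx'
  rw [hx, hx']

omit [InnerProductSpace ℂ V] in
theorem int_sq {F : Ω → V} (hF : MemLp F 2 μ) : Integrable (fun x => ‖F x‖ ^ 2) μ :=
  (memLp_two_iff_integrable_sq_norm hF.1).1 hF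

theorem nsq (G : Lp V 2 μ) : ‖G‖ ^ 2 = ∫ x, ‖G x‖ ^ 2 ∂μ := by
  have h1 : (‖G‖ ^ 2 : ℝ) = RCLike.re (inner ℂ G G : ℂ) := by
    rw [← inner_self_eq_norm_sq (𝕜 := ℂ)]
  rw [h1, L2.inner_def]
  have h2 : (∫ a, (inner ℂ (G a) (G a) : ℂ) ∂μ) = ((∫ a, ‖G a‖ ^ 2 ∂μ : ℝ) : ℂ) := by
    rw [← integral_complex_ofReal]
    refine integral_congr_ae (Eventually.of_forall fun x => ?_)
    simp only [inner_self_eq_norm_sq_to_K]
    norm_num
  rw [h2]
  simp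

/-- limits of cut-offs -/
theorem IE.lim (hE : IsClosed (E : Set (Lp V 2 μ))) {F : Ω → V} (hF : MemLp F 2 μ)
    (s : ℕ → Set Ω) (hs : ∀ k, IE μ E ((s k).indicator F))
    (hs' : ∀ᵐ x ∂μ, ∀ᶠ k in atTop, x ∈ s k) : IE μ E F := by
  choose G hG hG' using hs
  refine ⟨hF.toLp, ?_, hF.coeFn_toLp⟩
  refine hE.mem_of_tendsto (f := G) (b := atTop) ?_ (Eventually.of_forall hG)
  rw [tendsto_iff_norm_sub_tendsto_zero]
  have h1 : Tendsto (fun k => ‖G k - hF.toLp‖ ^ 2) atTop (𝓝 0) := by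
    have h2 : ∀ k, ‖G k - hF.toLp‖ ^ 2 = ∫ x, ‖(s k).indicator F x - F x‖ ^ 2 ∂μ := by
      intro k
      rw [nsq]
      refine integral_congr_ae ?_
      filter_upwards [Lp.coeFn_sub (G k) hF.toLp, hG' k, hF.coeFn_toLp] with x hx hx1 hx2
      rw [hx, Pi.sub_apply, hx1, hx2]
    simp_rw [h2]
    rw [← integral_zero Ω ℝ (μ := μ)]
    refine tendsto_integral_of_dominated_convergence (fun x => ‖F x‖ ^ 2) ?_ (int_sq hF) ?_ ?_
    · intro k
      have h3 : AEStronglyMeasurable ((s k).indicator F) μ :=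
        (Lp.aestronglyMeasurable (G k)).congr (hG' k)
      exact ((h3.sub hF.1).norm.aemeasurable.pow_const 2).aestronglyMeasurable
    · intro k
      refine Eventually.of_forall fun x => ?_
      by_cases hx : x ∈ s k
      · simp [hx]
      · simp [hx]
    · filter_upwards [hs'] with x hx
      refine tendsto_const_nhds.congr' ?_
      filter_upwards [hx] with k hk
      simp [hk]
  have h3 : Tendsto (fun k => √(‖G k - hF.toLp‖ ^ 2)) atTop (𝓝 √0) := h1.sqrt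
  rw [Real.sqrt_zero] at h3
  refine h3.congr fun k => ?_
  exact Real.sqrt_sq (norm_nonneg _)

end Pool.Agent.Helper72.TWR
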