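import Pool.Agent.Helper72.TWR.Mod

/-!
Transport of orthonormal families from a set of positive measure to the whole space.
-/

open MeasureTheory Filter Topology Finset
open scoped ComplexConjugate

namespace Pool.Agent.Helper72.TWR

open Pool.Agent.Helper98.TW
open Pool.Agent.Helper73.TWR (pull cec ind ind_mul am_ind)

variable {Ω : Type} [m0 : MeasurableSpace Ω]
variable {V : Type} [NormedAddCommGroup V] [InnerProductSpace ℂ V]
variable {μ : Measure Ω} {E : Submodule ℂ (Lp V 2 μ)}

omit m0 in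
theorem ind_le (s : Set Ω) (x : Ω) : ‖ind s x‖ ≤ 1 := by
  by_cases h : x ∈ s <;> simp [ind, h]

omit m0 in
theorem ind_of_mem {s : Set Ω} {x : Ω} (h : x ∈ s) : ind s x = 1 := by simp [ind, h]

omit m0 in
theorem ind_of_not {s : Set Ω} {x : Ω} (h : x ∉ s) : ind s x = 0 := by simp [ind, h]

omit m0 in
theorem ind_smul (s : Set Ω) (F : Ω → V) (x : Ω) : ind s x • F x = s.indicator F x := by
  by_cases h : x ∈ s <;> simp [ind, h]

/-- points which enter `B` before time `n` -/
def Un (R : Ω → Ω) (B : Set Ω) : ℕ → Set Ω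
  | 0 => ∅
  | n + 1 => Un R B n ∪ (R^[n]) ⁻¹' B

/-- points which enter `B` at time `n` for the first time -/
def Dn (R : Ω → Ω) (B : Set Ω) (n : ℕ) : Set Ω := (R^[n]) ⁻¹' B \ Un R B n

omit m0 in
theorem mem_un {R : Ω → Ω} {B : Set Ω} {n : ℕ} {x : Ω} :
    x ∈ Un R B n ↔ ∃ j < n, R^[j] x ∈ B := by
  induction n with
  | zero => simp [Un]
  | succ n ih =>
    constructor
    · rintro (h | h)
      · obtain ⟨j, hj, h⟩ := ih.1 h
        exact ⟨j, by omega, h⟩
      · exact ⟨n, by omega, h⟩
    · rintro ⟨j, hj, h⟩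
      rcases Nat.lt_succ_iff_lt_or_eq.1 hj with h' | rfl
      · exact Or.inl (ih.2 ⟨j, h', h⟩)
      · exact Or.inr h

omit m0 in
theorem dn_of_find {R : Ω → Ω} {B : Set Ω} {x : Ω} (h : ∃ n, R^[n] x ∈ B) :
    ∃ n, x ∈ Dn R B n := by
  classical
  refine ⟨Nat.find h, Nat.find_spec h, fun h' => ?_⟩
  obtain ⟨j, hj, h2⟩ := mem_un.1 h'
  exact Nat.find_min h hj h2

omit m0 in
theorem dn_unique {R : Ω → Ω} {B : Set Ω} {x : Ω} {n k : ℕ} (h : x ∈ Dn R B n)
    (h' : x ∈ Dn R B k) : n = k := by
  rcases lt_trichotomy n k with h1 | h1 | h1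
  · exact absurd (mem_un.2 ⟨n, h1, h.1⟩) h'.2
  · exact h1
  · exact absurd (mem_un.2 ⟨k, h1, h'.1⟩) h.2

theorem meas_un {R : Ω → Ω} (hR : Measurable R) {B : Set Ω} (hB : MeasurableSet B) (n : ℕ) :
    MeasurableSet (Un R B n) := by
  induction n with
  | zero => exact MeasurableSet.empty
  | succ n ih => exact ih.union ((hR.iterate n) hB)

theorem meas_dn {R : Ω → Ω} (hR : Measurable R) {B : Set Ω} (hB : MeasurableSet B) (n : ℕ) :
    MeasurableSet (Dn R B n) := ((hR.iterate n) hB).diff (meas_un hR hB n)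

theorem am_comp_iter {C : SA Ω} {R R' : Ω → Ω} (hI : IA μ C R R') {f : Ω → ℂ} (hf : AM μ C f)
    (n : ℕ) : AM μ C (fun x => f (R^[n] x)) := by
  induction n with
  | zero => exact hf
  | succ n ih =>
    have := (hI.2 _ ih).1
    exact this

theorem am_un {C : SA Ω} {R R' : Ω → Ω} (hI : IA μ C R R') {B : Set Ω} (hB : AM μ C (ind B))
    (n : ℕ) : AM μ C (ind (Un R B n)) := by
  induction n with
  | zero =>
    have : ind (Un R B 0) = fun _ : Ω => (0 : ℂ) := by
      funext x
      exact ind_of_not (by simp [Un])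
    rw [this]
    exact aestronglyMeasurable_const
  | succ n ih =>
    have h1 := am_comp_iter hI hB n
    have h2 : AM μ C (fun x => ind (Un R B n) x + ind B (R^[n] x) -
        ind (Un R B n) x * ind B (R^[n] x)) := (ih.add h1).sub (ih.mul h1)
    have h3 : (fun x => ind (Un R B n) x + ind B (R^[n] x) -
        ind (Un R B n) x * ind B (R^[n] x)) = ind (Un R B (n + 1)) := by
      funext x
      by_cases ha : x ∈ Un R B n
      · have hc : x ∈ Un R B (n + 1) := Or.inl ha
        rw [ind_of_mem ha, ind_of_mem hc]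
        ring
      · by_cases hb : R^[n] x ∈ B
        · have hc : x ∈ Un R B (n + 1) := Or.inr hb
          rw [ind_of_not ha, ind_of_mem hb, ind_of_mem hc]
          ring
        · have hc : x ∉ Un R B (n + 1) := fun h => h.elim ha hb
          rw [ind_of_not ha, ind_of_not hb, ind_of_not hc]
          ring
    rw [← h3]
    exact h2

theorem am_dn {C : SA Ω} {R R' : Ω → Ω} (hI : IA μ C R R') {B : Set Ω} (hB : AM μ C (ind B))
    (n : ℕ) : AM μ C (ind (Dn R B n)) := by
  have h1 := am_comp_iter hI hB n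
  have ih := am_un hI hB n
  have h2 : AM μ C (fun x => ind B (R^[n] x) - ind (Un R B n) x * ind B (R^[n] x)) :=
    h1.sub (ih.mul h1)
  have h3 : (fun x => ind B (R^[n] x) - ind (Un R B n) x * ind B (R^[n] x)) =
      ind (Dn R B n) := by
    funext x
    by_cases ha : x ∈ Un R B n
    · have hc : x ∉ Dn R B n := fun h => h.2 ha
      rw [ind_of_mem ha, ind_of_not hc]
      ring
    · by_cases hb : R^[n] x ∈ B
      · have hc : x ∈ Dn R B n := ⟨hb, ha⟩
        rw [ind_of_not ha, ind_of_mem hb, ind_of_mem hc]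
        ring
      · have hc : x ∉ Dn R B n := fun h => hb h.1
        rw [ind_of_not ha, ind_of_not hb, ind_of_not hc]
        ring
  rw [← h3]
  exact h2

theorem ae_enter [IsProbabilityMeasure μ] {R : Ω → Ω} (hR : Ergodic R μ) {B : Set Ω}
    (hB : MeasurableSet B) (hB0 : μ B ≠ 0) : ∀ᵐ x ∂μ, ∃ n, R^[n] x ∈ B := by
  set A : Set Ω := ⋃ n, (R^[n]) ⁻¹' B with hA
  have hAm : MeasurableSet A := MeasurableSet.iUnion fun n => (hR.measurable.iterate n) hB
  have h1 : R ⁻¹' A ⊆ A := by
    intro x hx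
    rw [hA, Set.mem_preimage, Set.mem_iUnion] at hx
    obtain ⟨n, hn⟩ := hx
    rw [hA, Set.mem_iUnion]
    exact ⟨n + 1, hn⟩
  have h2 := hR.ae_empty_or_univ_of_preimage_ae_le hAm.nullMeasurableSet
    (LE.le.eventuallyLE h1)
  rcases h2 with h2 | h2
  · exfalso
    have h3 : μ A = 0 := by rw [measure_congr h2, measure_empty]
    have h4 : B ⊆ A := fun x hx => Set.mem_iUnion.2 ⟨0, hx⟩
    exact hB0 (measure_mono_null h4 h3)
  · have h3 : ∀ᵐ x ∂μ, x ∈ A := by
      filter_upwards [h2] with x hx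
      have : (x ∈ A) = (x ∈ Set.univ) := hx
      rw [this]
      trivial
    filter_upwards [h3] with x hx
    exact Set.mem_iUnion.1 hx

theorem cec_iter [IsProbabilityMeasure μ] {R R' : Ω → Ω} {C : SA Ω} {F : Ω → ℂ}
    (hS : Sys μ R R') (hI : IA μ C R R') (hF : Integrable F μ) (n : ℕ) :
    μ[fun x => F (R^[n] x)|C] =ᵐ[μ] fun x => (μ[F|C]) (R^[n] x) := by
  induction n with
  | zero => exact Filter.EventuallyEq.rfl
  | succ n ih =>
    have h1 : Integrable (fun x => F (R^[n] x)) μ :=
      (hS.mp.iterate n).integrable_comp_of_integrable hF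
    have h2 := cec hS hI h1
    have h3 := hS.mp.quasiMeasurePreserving.ae_eq_comp ih
    exact h2.trans h3

/-- transport -/
theorem transport [IsProbabilityMeasure μ] {R R' : Ω → Ω} {C : SA Ω} {θ : Ω → V →L[ℂ] V}
    (hS : Sys μ R R') (hR : Ergodic R μ) (hI : IA μ C R R') (hθ : AEStronglyMeasurable θ μ)
    (hθ1 : ∀ x v, ‖θ x v‖ = ‖v‖) (hE : CM μ C R θ E) {m : ℕ} (g : Fin m → Ω → V)
    (hg : ∀ a, IE μ E (g a)) {B : Set Ω} (hBm : MeasurableSet B) (hBC : AM μ C (ind B))
    (hB : μ B ≠ 0)
    (hgg : ∀ a b, μ[fun x => (inner ℂ (g b x) (g a x) : ℂ)|C] =ᵐ[μ]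
      fun x => ind B x * (if a = b then 1 else 0)) :
    ∃ e : Fin m → Lp V 2 μ, (∀ a, e a ∈ E) ∧ ON μ C e := by
  classical
  have hle : Lm C := hI.1
  -- the pieces
  set P : Fin m → ℕ → Ω → V := fun a n x => (Dn R B n).indicator (Wi θ R n (g a)) x with hP
  have hPE : ∀ a n, IE μ E (P a n) := by
    intro a n
    have h1 := (IE.wi hE hS.mp hθ hθ1 (hg a) n).smul hle hE.toC0 (am_dn hI hBC n)
      ⟨1, Eventually.of_forall fun x => ind_le _ x⟩
    exact h1.congr (Eventually.of_forall fun x => ind_smul _ _ x)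
  set Q : Fin m → ℕ → Ω → V := fun a K x => ∑ n ∈ range K, P a n x with hQ
  have hQE : ∀ a K, IE μ E (Q a K) := fun a K => IE.sum _ fun n _ => hPE a n
  -- the limit
  set e : Fin m → Ω → V := fun a x =>
    if h : ∃ n, R^[n] x ∈ B then Wi θ R (Nat.find h) (g a) x else 0 with he
  have hen : ∀ a n x, x ∈ Dn R B n → e a x = Wi θ R n (g a) x := by
    intro a n x hx
    have h : ∃ n, R^[n] x ∈ B := ⟨n, hx.1⟩
    have h2 : x ∈ Dn R B (Nat.find h) := by
      refine ⟨Nat.find_spec h, fun h' => ?_⟩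
      obtain ⟨j, hj, h2⟩ := mem_un.1 h'
      exact Nat.find_min h hj h2
    have h3 := dn_unique h2 hx
    simp only [he, dif_pos h, h3]
  have hQe : ∀ a K x, Q a K x = (Un R B K).indicator (e a) x := by
    intro a K x
    induction K with
    | zero => simp [hQ, Un]
    | succ K ih =>
      have h1 : Q a (K + 1) x = Q a K x + P a K x := by
        simp only [hQ, Finset.sum_range_succ]
      rw [h1, ih]
      by_cases hx : x ∈ Un R B K
      · have hx' : x ∈ Un R B (K + 1) := Or.inl hx
        have hx2 : x ∉ Dn R B K := fun h => h.2 hx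
        simp only [hP, Set.indicator_of_mem hx, Set.indicator_of_mem hx',
          Set.indicator_of_notMem hx2, add_zero]
      · by_cases hb : R^[K] x ∈ B
        · have hx' : x ∈ Un R B (K + 1) := Or.inr hb
          have hx2 : x ∈ Dn R B K := ⟨hb, hx⟩
          simp only [hP, Set.indicator_of_notMem hx, Set.indicator_of_mem hx',
            Set.indicator_of_mem hx2, zero_add, hen a K x hx2]
        · have hx' : x ∉ Un R B (K + 1) := fun h => h.elim hx hb
          have hx2 : x ∉ Dn R B K := fun h => hb h.1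
          simp only [hP, Set.indicator_of_notMem hx, Set.indicator_of_notMem hx',
            Set.indicator_of_notMem hx2, add_zero]
  have hent := ae_enter hR hBm hB
  have hev : ∀ᵐ x ∂μ, ∀ᶠ K in atTop, x ∈ Un R B K := by
    filter_upwards [hent] with x hx
    obtain ⟨n, hn⟩ := hx
    filter_upwards [eventually_gt_atTop n] with K hK
    exact mem_un.2 ⟨n, hK, hn⟩
  -- the inner products of the pieces
  have hin : ∀ a b n, μ[fun x => ind (Dn R B n) x *
      (inner ℂ (Wi θ R n (g b) x) (Wi θ R n (g a) x) : ℂ)|C] =ᵐ[μ]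
      fun x => ind (Dn R B n) x * (if a = b then 1 else 0) := by
    intro a b n
    have hi : Integrable (fun x => (inner ℂ (g b x) (g a x) : ℂ)) μ :=
      int_inner (hg b).ml (hg a).ml
    have hi' : Integrable (fun x => (inner ℂ (Wi θ R n (g b) x) (Wi θ R n (g a) x) : ℂ)) μ :=
      int_inner (IE.wi hE hS.mp hθ hθ1 (hg b) n).ml (IE.wi hE hS.mp hθ hθ1 (hg a) n).ml
    have h1 := pull (am_dn hI hBC n) (hi'.bdd_mul (c := 1) ((am_dn hI hBC n).mono hle)
      (Eventually.of_forall fun x => ind_le _ x)) hi'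
    have h2 : μ[fun x => (inner ℂ (Wi θ R n (g b) x) (Wi θ R n (g a) x) : ℂ)|C] =ᵐ[μ]
        fun x => (μ[fun x => (inner ℂ (g b x) (g a x) : ℂ)|C]) (R^[n] x) := by
      refine EventuallyEq.trans (condExp_congr_ae ?_) (cec_iter hS hI hi n)
      exact Eventually.of_forall fun x => inner_wi hθ1 (g b) (g a) n x
    have h3 := (hS.mp.iterate n).quasiMeasurePreserving.ae_eq_comp (hgg a b)
    filter_upwards [h1, h2, h3] with x hx1 hx2 hx3
    rw [hx1, hx2]
    have hx4 : (μ[fun x => (inner ℂ (g b x) (g a x) : ℂ)|C]) (R^[n] x) =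
      ind B (R^[n] x) * (if a = b then 1 else 0) := hx3
    rw [hx4]
    by_cases hx : x ∈ Dn R B n
    · rw [ind_of_mem hx, ind_of_mem (show R^[n] x ∈ B from hx.1)]
      ring
    · rw [ind_of_not hx]
      ring
  -- square integrability of the limit
  have hasm : ∀ a, AEStronglyMeasurable (e a) μ := by
    intro a
    refine aestronglyMeasurable_of_tendsto_ae atTop (f := fun K => Q a K)
      (fun K => (hQE a K).ml.1) ?_
    filter_upwards [hev] with x hx
    refine tendsto_const_nhds.congr' ?_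
    filter_upwards [hx] with K hK
    rw [hQe, Set.indicator_of_mem hK]
  have hsq : ∀ a K, ∫ x, ‖Q a K x‖ ^ 2 ∂μ ≤ 1 := by
    intro a K
    have h1 : ∀ x, ‖Q a K x‖ ^ 2 = ∑ n ∈ range K, ‖P a n x‖ ^ 2 := by
      intro x
      by_cases hx : x ∈ Un R B K
      · obtain ⟨j, hj, hjB⟩ := mem_un.1 hx
        obtain ⟨n, hn⟩ := dn_of_find ⟨j, hjB⟩
        have hnK : n < K := by
          by_contra hcon
          push Not at hcon
          exact hn.2 (mem_un.2 ⟨j, by omega, hjB⟩)
        rw [hQe, Set.indicator_of_mem hx, Finset.sum_eq_single n]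
        · simp only [hP, Set.indicator_of_mem hn, hen a n x hn]
        · intro k _ hk
          have : x ∉ Dn R B k := fun h => hk (dn_unique h hn)
          simp only [hP, Set.indicator_of_notMem this]
          simp
        · intro h
          exact absurd (Finset.mem_range.2 hnK) h
      · rw [hQe, Set.indicator_of_notMem hx]
        symm
        simp only [norm_zero]
        rw [zero_pow two_ne_zero]
        refine Finset.sum_eq_zero fun n hn => ?_
        have : x ∉ Dn R B n := fun h =>
          hx (mem_un.2 ⟨n, Finset.mem_range.1 hn, h.1⟩)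
        simp only [hP, Set.indicator_of_notMem this]
        simp
    have h2 : ∀ n, ∫ x, ‖P a n x‖ ^ 2 ∂μ = μ.real (Dn R B n) := by
      intro n
      have h3 : ((∫ x, ‖P a n x‖ ^ 2 ∂μ : ℝ) : ℂ) =
          ∫ x, ind (Dn R B n) x * (inner ℂ (Wi θ R n (g a) x) (Wi θ R n (g a) x) : ℂ) ∂μ := by
        rw [← integral_complex_ofReal]
        refine integral_congr_ae (Eventually.of_forall fun x => ?_)
        simp only [hP]
        by_cases hx : x ∈ Dn R B n
        · rw [Set.indicator_of_mem hx, ind_of_mem hx, one_mul, inner_self_eq_norm_sq_to_K]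
          norm_num
        · rw [Set.indicator_of_notMem hx, ind_of_not hx]
          norm_num
      have h4 : ∫ x, ind (Dn R B n) x *
          (inner ℂ (Wi θ R n (g a) x) (Wi θ R n (g a) x) : ℂ) ∂μ =
          ∫ x, ind (Dn R B n) x ∂μ := by
        have : IsFiniteMeasure (μ.trim hle) := isFiniteMeasure_trim hle
        have : SigmaFinite (μ.trim hle) := IsFiniteMeasure.toSigmaFinite _
        rw [← integral_condExp hle]
        refine integral_congr_ae ?_
        filter_upwards [hin a a n] with x hx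
        rw [hx, if_pos rfl, mul_one]
      have h5 : ∫ x, ind (Dn R B n) x ∂μ = (μ.real (Dn R B n) : ℂ) := by
        have : ∀ x, ind (Dn R B n) x = (Dn R B n).indicator (fun _ => (1 : ℂ)) x := fun x => rfl
        simp_rw [this]
        rw [integral_indicator (meas_dn hS.mp.measurable hBm n)]
        simp
      exact Complex.ofReal_injective (h3.trans (h4.trans h5))
    simp_rw [h1]
    rw [integral_finsetSum _ fun n _ => int_sq (hPE a n).ml]
    simp_rw [h2]
    have h3 : ∑ n ∈ range K, μ.real (Dn R B n) = μ.real (⋃ n ∈ range K, Dn R B n) := by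
      rw [measureReal_biUnion_finset]
      · intro i _ j _ hij
        refine Set.disjoint_left.2 fun x hx hx' => hij (dn_unique hx hx')
      · intro i _
        exact meas_dn hS.mp.measurable hBm i
    rw [h3]
    exact measureReal_le_one
  have hml : ∀ a, MemLp (e a) 2 μ := by
    intro a
    refine ⟨hasm a, ?_⟩
    have h1 : eLpNorm (e a) 2 μ ≤ liminf (fun K => eLpNorm (Q a K) 2 μ) atTop := by
      refine Lp.eLpNorm_lim_le_liminf_eLpNorm (fun K => (hQE a K).ml.1) (e a) ?_
      filter_upwards [hev] with x hx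
      refine tendsto_const_nhds.congr' ?_
      filter_upwards [hx] with K hK
      rw [hQe, Set.indicator_of_mem hK]
    have h2 : ∀ K, eLpNorm (Q a K) 2 μ ≤ 1 := by
      intro K
      obtain ⟨G, _, hG⟩ := hQE a K
      have h3 : ‖G‖ ^ 2 ≤ 1 := by
        rw [nsq]
        refine le_trans (le_of_eq ?_) (hsq a K)
        refine integral_congr_ae ?_
        filter_upwards [hG] with x hx
        rw [hx]
      have h4 : ‖G‖ ≤ 1 := by
        nlinarith [norm_nonneg G]
      rw [← eLpNorm_congr_ae hG]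
      have h5 : eLpNorm G 2 μ = ENNReal.ofReal ‖G‖ := by
        rw [Lp.norm_def, ENNReal.ofReal_toReal (Lp.eLpNorm_ne_top G)]
      rw [h5]
      exact ENNReal.ofReal_le_one.2 h4
    refine lt_of_le_of_lt h1 (lt_of_le_of_lt (b := (1 : ENNReal)) ?_ ENNReal.one_lt_top)
    refine liminf_le_of_le (by isBoundedDefault) fun b hb => ?_
    obtain ⟨K, hK⟩ := hb.exists
    exact hK.trans (h2 K)
  have heE : ∀ a, IE μ E (e a) := by
    intro a
    refine IE.lim hE.closed (hml a) (Un R B) (fun K => ?_) hev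
    exact (hQE a K).congr (Eventually.of_forall fun x => hQe a K x)
  -- the conditional inner products of the limit
  refine ⟨fun a => (hml a).toLp (e a), fun a => mem_of_ie ((heE a).congr (hml a).coeFn_toLp.symm), ?_⟩
  intro a b
  have hi : Integrable (fun x => (inner ℂ (e b x) (e a x) : ℂ)) μ := int_inner (hml b) (hml a)
  have h0 : μ[fun x => (inner ℂ (((hml b).toLp (e b) : Lp V 2 μ) x) (((hml a).toLp (e a) : Lp V 2 μ) x) : ℂ)|C] =ᵐ[μ]
      μ[fun x => (inner ℂ (e b x) (e a x) : ℂ)|C] := by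
    refine condExp_congr_ae ?_
    filter_upwards [(hml b).coeFn_toLp, (hml a).coeFn_toLp] with x hx hx'
    rw [hx, hx']
  refine h0.trans ?_
  have h1 : ∀ n, ∀ᵐ x ∂μ, ind (Dn R B n) x * (μ[fun x => (inner ℂ (e b x) (e a x) : ℂ)|C]) x =
      ind (Dn R B n) x * (if a = b then 1 else 0) := by
    intro n
    have h2 := pull (am_dn hI hBC n) (hi.bdd_mul (c := 1) ((am_dn hI hBC n).mono hle)
      (Eventually.of_forall fun x => ind_le _ x)) hi
    have h3 : μ[fun x => ind (Dn R B n) x * (inner ℂ (e b x) (e a x) : ℂ)|C] =ᵐ[μ]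
        μ[fun x => ind (Dn R B n) x *
          (inner ℂ (Wi θ R n (g b) x) (Wi θ R n (g a) x) : ℂ)|C] := by
      refine condExp_congr_ae (Eventually.of_forall fun x => ?_)
      by_cases hx : x ∈ Dn R B n
      · simp only [hen a n x hx, hen b n x hx]
      · simp only [ind_of_not hx, zero_mul]
    filter_upwards [h2, h3, hin a b n] with x hx2 hx3 hx4
    rw [← hx2, hx3, hx4]
  filter_upwards [ae_all_iff.2 h1, hent] with x hx hx'
  obtain ⟨n, hn⟩ := dn_of_find hx'
  have := hx n
  rw [ind_of_mem hn, one_mul, one_mul] at this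
  exact this

end Pool.Agent.Helper72.TWR
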